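import Pool.Agent.R890.HSA.Main

set_option autoImplicit false

/-!
# MP_8dad47_al: homological shift algebras of polymatroidal ideals are generated in degrees `≤ i`

For every field `K`, every `n`, every polymatroidal ideal `I` of `K[x_1,...,x_n]`, every `i > 0` and
every `k ≥ i` one has `HS_i(I^(k+1)) = I HS_i(I^k)`. This is a positive answer to Q1.

Idea. Let `f` be the rank function of the discrete polymatroid of `I`. The upper Koszul complexes
of a polymatroidal ideal are matroid complexes, and this gives: for `i > 0`, `Tor_i(K, I^k)_a ≠ 0`
if and only if `|a| = k f([n]) + i` and `a(A) ≤ k f(A) + min(|A| - 1, i)` for all nonempty `A`.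
For `k ≥ i` an element of this set for `k + 1` is split as a base of `I` plus an element of the set
for `k`, by a discrete sandwich theorem applied to the supermodular closure of the intersecting
supermodular function `a(A) - k f(A) - min(|A| - 1, i)`.
-/

namespace Pool.Agent.Results.MP_8dad47_al.GeneratedInDegreeI

open Pool.Agent.R890.HSA

universe u

theorem result (K : Type u) [Field K] (n : ℕ) (I : Ideal (MvPolynomial (Fin n) K))
    (hI : Polymatroidal I) (i : ℕ) (hi : 0 < i) (k : ℕ) (hk : i ≤ k) :
    HS i (I ^ (k + 1)) = I * HS i (I ^ k) :=
  HS_pow_succ hI hi hk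

end Pool.Agent.Results.MP_8dad47_al.GeneratedInDegreeI
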